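import Mathlib

set_option autoImplicit false

namespace Pool.Agent.H58.MapGraph

/-- A cellular embedding of a graph (loops and multiple edges allowed) in a connected closed
surface, given by its flags (generalised map). A flag is a triple (vertex, edge, face) of mutually
incident corners of the embedding; `a0`, `a1`, `a2` exchange its vertex, its edge and its face. -/
structure FlagMap (X : Type) where
  a0 : X → X
  a1 : X → X
  a2 : X → X
  inv0 : ∀ x, a0 (a0 x) = x
  inv1 : ∀ x, a1 (a1 x) = x
  inv2 : ∀ x, a2 (a2 x) = x
  ne0 : ∀ x, a0 x ≠ x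
  ne1 : ∀ x, a1 x ≠ x
  ne2 : ∀ x, a2 x ≠ x
  comm : ∀ x, a0 (a2 x) = a2 (a0 x)
  ne02 : ∀ x, a0 (a2 x) ≠ x
  conn : ∀ x y, Relation.EqvGen (fun u v => v = a0 u ∨ v = a1 u ∨ v = a2 u) x y

namespace FlagMap

variable {X : Type} (M : FlagMap X)

/-- Flags with the same vertex: the orbits of `a1`, `a2`. -/
def vertexSetoid : Setoid X :=
  Relation.EqvGen.setoid (fun u v => v = M.a1 u ∨ v = M.a2 u)

/-- Flags with the same edge: the orbits of `a0`, `a2`. -/
def edgeSetoid : Setoid X :=
  Relation.EqvGen.setoid (fun u v => v = M.a0 u ∨ v = M.a2 u)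

/-- Flags with the same face: the orbits of `a0`, `a1`. -/
def faceSetoid : Setoid X :=
  Relation.EqvGen.setoid (fun u v => v = M.a0 u ∨ v = M.a1 u)

/-- The vertices of the embedded graph. -/
abbrev Vertex : Type := Quotient M.vertexSetoid

/-- The edges of the embedded graph. -/
abbrev Edge : Type := Quotient M.edgeSetoid

/-- The faces of the cellular embedding. -/
abbrev Face : Type := Quotient M.faceSetoid

/-- The Euler characteristic `|V| - |E| + |F|` of the surface. -/
noncomputable def eulerChar : ℤ :=
  (Nat.card M.Vertex : ℤ) - Nat.card M.Edge + Nat.card M.Face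

/-- The flags in the same face of the subgraph whose edges are the `kept` ones: one may cross an
edge (by `a2`) exactly when it is not kept. -/
def regionSetoid (kept : Set X) : Setoid X :=
  Relation.EqvGen.setoid (fun u v => v = M.a0 u ∨ v = M.a1 u ∨ (v = M.a2 u ∧ u ∉ kept))

/-- The faces of the subgraph whose edges are the `kept` ones (and with all the vertices). -/
abbrev Region (kept : Set X) : Type := Quotient (M.regionSetoid kept)

/-- `kept` is a set of edges. -/
def IsEdgeSet (kept : Set X) : Prop := ∀ x ∈ kept, M.a0 x ∈ kept ∧ M.a2 x ∈ kept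

end FlagMap

end Pool.Agent.H58.MapGraph
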