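import Mathlib
import Pool.Agent.H58.MapGraph.Defs

set_option autoImplicit false

namespace Pool.Agent.H58.MapGraph

open Module

abbrev R : Type := ZMod 2

lemma R_add_self (a : R) : a + a = 0 := CharTwo.add_self_eq_zero a

lemma R_add_eq_zero {a b : R} : a + b = 0 ↔ a = b := by
  rw [CharTwo.add_eq_zero]

variable {X : Type} [Fintype X]

/-- functions invariant under a setoid -/
def Inv (r : Setoid X) : Submodule R (X → R) where
  carrier := {y | ∀ x x', r x x' → y x = y x'}
  add_mem' := by
    intro a b ha hb x x' h
    simp only [Pi.add_apply, ha x x' h, hb x x' h]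
  zero_mem' := by intro x x' _; rfl
  smul_mem' := by
    intro c a ha x x' h
    simp only [Pi.smul_apply, ha x x' h]

omit [Fintype X] in
lemma mem_Inv {r : Setoid X} {y : X → R} : y ∈ Inv r ↔ ∀ x x', r x x' → y x = y x' := Iff.rfl

omit [Fintype X] in
lemma mem_Inv_gen {rel : X → X → Prop} {y : X → R} :
    y ∈ Inv (Relation.EqvGen.setoid rel) ↔ ∀ x x', rel x x' → y x = y x' := by
  constructor
  · intro h x x' hr
    exact h x x' (Relation.EqvGen.rel _ _ hr)
  · intro h x x' hr
    induction hr with
    | rel _ _ h' => exact h _ _ h'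
    | refl _ => rfl
    | symm _ _ _ ih => exact ih.symm
    | trans _ _ _ _ _ ih1 ih2 => exact ih1.trans ih2

noncomputable def invEquiv (r : Setoid X) : (Quotient r → R) ≃ₗ[R] Inv r where
  toFun f := ⟨fun x => f (Quotient.mk r x), fun x x' h => by
    show f (Quotient.mk r x) = f (Quotient.mk r x')
    rw [Quotient.sound h]⟩
  map_add' _ _ := rfl
  map_smul' _ _ := rfl
  invFun y := fun q => Quotient.liftOn q y.1 (fun a b h => y.2 a b h)
  left_inv f := by
    funext q
    induction q using Quotient.inductionOn with
    | _ a => rfl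
  right_inv y := by
    ext x
    rfl

lemma finrank_Inv (r : Setoid X) : finrank R (Inv r) = Nat.card (Quotient r) := by
  classical
  rw [← LinearEquiv.finrank_eq (invEquiv r), Module.finrank_pi, Nat.card_eq_fintype_card]

end Pool.Agent.H58.MapGraph
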