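import Mathlib
import Pool.Agent.H58.MapGraph.Defs
import Pool.Agent.H58.MapGraph.Linear

set_option autoImplicit false

namespace Pool.Agent.H58.MapGraph

open Module

namespace FlagMap

variable {X : Type} [Fintype X] (M : FlagMap X)

def cornerSetoid : Setoid X := Relation.EqvGen.setoid (fun u v => v = M.a1 u)

omit [Fintype X] in
lemma corner_iff (u v : X) : M.cornerSetoid u v ↔ v = u ∨ v = M.a1 u := by
  constructor
  · intro h
    induction h with
    | rel _ _ h => exact Or.inr h
    | refl _ => exact Or.inl rfl
    | symm a b _ ih =>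
      rcases ih with rfl | rfl
      · exact Or.inl rfl
      · exact Or.inr (M.inv1 a).symm
    | trans a b c _ _ ih1 ih2 =>
      rcases ih1 with rfl | rfl <;> rcases ih2 with rfl | rfl
      · exact Or.inl rfl
      · exact Or.inr rfl
      · exact Or.inr rfl
      · exact Or.inl (M.inv1 a)
  · rintro (rfl | rfl)
    · exact Relation.EqvGen.refl _
    · exact Relation.EqvGen.rel _ _ rfl

omit [Fintype X] in
lemma comm' (x : X) : M.a2 (M.a0 x) = M.a0 (M.a2 x) := (M.comm x).symm

omit [Fintype X] in
lemma edge_iff (u v : X) : M.edgeSetoid u v ↔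
    v = u ∨ v = M.a0 u ∨ v = M.a2 u ∨ v = M.a0 (M.a2 u) := by
  constructor
  · intro h
    induction h with
    | rel _ _ h => rcases h with h | h <;> simp [h]
    | refl _ => exact Or.inl rfl
    | symm a b _ ih =>
      rcases ih with rfl | rfl | rfl | rfl
      · exact Or.inl rfl
      · right; left; exact (M.inv0 a).symm
      · right; right; left; exact (M.inv2 a).symm
      · right; right; right
        rw [← M.comm', M.inv0, M.inv2]
    | trans a b c _ _ ih1 ih2 =>
      rcases ih1 with rfl | rfl | rfl | rfl <;> rcases ih2 with rfl | rfl | rfl | rfl <;>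
        simp [M.comm', M.inv0, M.inv2]
  · rintro (rfl | rfl | rfl | rfl)
    · exact Relation.EqvGen.refl _
    · exact Relation.EqvGen.rel _ _ (Or.inl rfl)
    · exact Relation.EqvGen.rel _ _ (Or.inr rfl)
    · exact Relation.EqvGen.trans _ _ _ (Relation.EqvGen.rel _ _ (Or.inr rfl))
        (Relation.EqvGen.rel _ _ (Or.inl rfl))

lemma card_corner : Fintype.card X = 2 * Nat.card (Quotient M.cornerSetoid) := by
  classical
  have h := Finset.card_eq_sum_card_fiberwise (f := fun x : X => Quotient.mk M.cornerSetoid x)
    (s := Finset.univ) (t := Finset.univ) (fun _ _ => Finset.mem_coe.mpr (Finset.mem_univ _))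
  rw [Finset.card_univ] at h
  rw [h, Finset.sum_const_nat (m := 2), Finset.card_univ, Nat.card_eq_fintype_card, mul_comm]
  intro q _
  induction q using Quotient.inductionOn with
  | _ a =>
    have : (Finset.univ.filter fun x => Quotient.mk M.cornerSetoid x = Quotient.mk M.cornerSetoid a)
        = {a, M.a1 a} := by
      ext x
      rw [Finset.mem_filter, Finset.mem_insert, Finset.mem_singleton, eq_comm, Quotient.eq]
      simp only [Finset.mem_univ, true_and]
      exact M.corner_iff a x
    rw [this, Finset.card_pair (M.ne1 a).symm]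

omit [Fintype X] in
lemma ne02' (x : X) : M.a0 x ≠ M.a2 x := by
  intro h
  apply M.ne02 x
  rw [← h, M.inv0]

lemma card_edge : Fintype.card X = 4 * Nat.card M.Edge := by
  classical
  have h := Finset.card_eq_sum_card_fiberwise (f := fun x : X => Quotient.mk M.edgeSetoid x)
    (s := Finset.univ) (t := Finset.univ) (fun _ _ => Finset.mem_coe.mpr (Finset.mem_univ _))
  rw [Finset.card_univ] at h
  rw [h, Finset.sum_const_nat (m := 4), Finset.card_univ, Nat.card_eq_fintype_card, mul_comm]
  intro q _
  induction q using Quotient.inductionOn with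
  | _ a =>
    have : (Finset.univ.filter fun x => Quotient.mk M.edgeSetoid x = Quotient.mk M.edgeSetoid a)
        = {a, M.a0 a, M.a2 a, M.a0 (M.a2 a)} := by
      ext x
      simp only [Finset.mem_filter, Finset.mem_insert, Finset.mem_singleton, Finset.mem_univ,
        true_and]
      rw [eq_comm, Quotient.eq]
      exact M.edge_iff a x
    rw [this]
    have h1 := (M.ne0 a).symm
    have h2 := (M.ne2 a).symm
    have h3 := (M.ne02 a).symm
    have h4 := M.ne02' a
    have h5 : M.a0 a ≠ M.a0 (M.a2 a) := by
      intro h
      have := congrArg M.a0 h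
      rw [M.inv0, M.inv0] at this
      exact h2 this
    have h6 : M.a2 a ≠ M.a0 (M.a2 a) := (M.ne0 _).symm
    rw [Finset.card_insert_of_notMem, Finset.card_insert_of_notMem, Finset.card_pair h6]
    · simp [h4, h5]
    · simp [h1, h2, h3]

/-- sum of a function over the four flags of an edge -/
def Q : (X → R) →ₗ[R] (X → R) where
  toFun y x := y x + y (M.a0 x) + y (M.a2 x) + y (M.a0 (M.a2 x))
  map_add' y z := by
    funext x
    simp only [Pi.add_apply]
    ring
  map_smul' c y := by
    funext x
    simp only [Pi.smul_apply, RingHom.id_apply, smul_eq_mul]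
    ring

omit [Fintype X] in
lemma Q_apply (y : X → R) (x : X) :
    M.Q y x = y x + y (M.a0 x) + y (M.a2 x) + y (M.a0 (M.a2 x)) := rfl

/-- cocycles of the radial quadrangulation -/
def Z : Submodule R (X → R) := Inv M.cornerSetoid ⊓ LinearMap.ker M.Q

/-- coboundaries of the radial quadrangulation -/
def B : Submodule R (X → R) := Inv M.vertexSetoid ⊔ Inv M.faceSetoid

variable [DecidableEq X]

omit [Fintype X] in
lemma Q_single_apply (a x : X) : M.Q (Pi.single a 1) x =
    if x = a ∨ x = M.a0 a ∨ x = M.a2 a ∨ x = M.a0 (M.a2 a) then 1 else 0 := by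
  have e0 : M.a0 x = a ↔ x = M.a0 a := by
    constructor
    · intro h; rw [← h, M.inv0]
    · intro h; rw [h, M.inv0]
  have e2 : M.a2 x = a ↔ x = M.a2 a := by
    constructor
    · intro h; rw [← h, M.inv2]
    · intro h; rw [h, M.inv2]
  have e02 : M.a0 (M.a2 x) = a ↔ x = M.a0 (M.a2 a) := by
    constructor
    · intro h; rw [← h, M.comm', M.inv2, M.inv0]
    · intro h; rw [h, M.comm', M.inv2, M.inv0]
  have h1 := (M.ne0 a).symm
  have h2 := (M.ne2 a).symm
  have h3 := (M.ne02 a).symm
  have h4 := M.ne02' a
  have h5 : M.a0 a ≠ M.a0 (M.a2 a) := by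
    intro h
    have := congrArg M.a0 h
    rw [M.inv0, M.inv0] at this
    exact h2 this
  have h6 : M.a2 a ≠ M.a0 (M.a2 a) := (M.ne0 _).symm
  rw [Q_apply]
  simp only [Pi.single_apply, e0, e2, e02]
  by_cases c1 : x = a
  · subst c1; simp [h1, h2, h3]
  · by_cases c2 : x = M.a0 a
    · subst c2; simp [h1.symm, h4, h5]
    · by_cases c3 : x = M.a2 a
      · subst c3; simp [h2.symm, h4.symm, h6]
      · simp [c1, c2, c3]

lemma edge_le (x0 : X) : Inv M.edgeSetoid ≤
    Submodule.map M.Q (Inv M.cornerSetoid) ⊔ Submodule.span R {M.Q (Pi.single x0 1)} := by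
  set U := Submodule.map M.Q (Inv M.cornerSetoid) ⊔ Submodule.span R {M.Q (Pi.single x0 1)}
    with hU
  have hinv : ∀ a b : X, M.edgeSetoid a b → M.Q (Pi.single a 1) = M.Q (Pi.single b 1) := by
    intro a b hab
    funext x
    rw [Q_single_apply, Q_single_apply]
    have : (x = a ∨ x = M.a0 a ∨ x = M.a2 a ∨ x = M.a0 (M.a2 a)) ↔
        (x = b ∨ x = M.a0 b ∨ x = M.a2 b ∨ x = M.a0 (M.a2 b)) := by
      rw [← M.edge_iff, ← M.edge_iff]
      exact ⟨fun h => M.edgeSetoid.trans' (M.edgeSetoid.symm' hab) h,
        fun h => M.edgeSetoid.trans' hab h⟩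
    simp only [this]
  have hstep : ∀ a : X, M.Q (Pi.single a 1) + M.Q (Pi.single (M.a1 a) 1) ∈ U := by
    intro a
    rw [← map_add]
    refine Submodule.mem_sup_left (Submodule.mem_map_of_mem ?_)
    rw [cornerSetoid, mem_Inv_gen]
    rintro x _ rfl
    simp only [Pi.add_apply, Pi.single_apply]
    have e1 : M.a1 x = a ↔ x = M.a1 a := by
      constructor
      · intro h; rw [← h, M.inv1]
      · intro h; rw [h, M.inv1]
    have e2 : M.a1 x = M.a1 a ↔ x = a := by
      constructor
      · intro h
        have := congrArg M.a1 h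
        rwa [M.inv1, M.inv1] at this
      · intro h; rw [h]
    simp only [e1, e2]
    exact add_comm _ _
  have hall : ∀ a b : X, M.Q (Pi.single a 1) + M.Q (Pi.single b 1) ∈ U := by
    intro a b
    have hc := M.conn a b
    induction hc with
    | rel u v h =>
      rcases h with rfl | rfl | rfl
      · rw [hinv u (M.a0 u) (Relation.EqvGen.rel _ _ (Or.inl rfl))]
        have : M.Q (Pi.single (M.a0 u) 1) + M.Q (Pi.single (M.a0 u) 1) = 0 := by
          funext x; exact R_add_self _
        rw [this]; exact U.zero_mem
      · exact hstep u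
      · rw [hinv u (M.a2 u) (Relation.EqvGen.rel _ _ (Or.inr rfl))]
        have : M.Q (Pi.single (M.a2 u) 1) + M.Q (Pi.single (M.a2 u) 1) = 0 := by
          funext x; exact R_add_self _
        rw [this]; exact U.zero_mem
    | refl u =>
      have : M.Q (Pi.single u 1) + M.Q (Pi.single u 1) = 0 := by
        funext x; exact R_add_self _
      rw [this]; exact U.zero_mem
    | symm u v _ ih => rw [add_comm]; exact ih
    | trans u v w _ _ ih1 ih2 =>
      have := U.add_mem ih1 ih2
      have e : M.Q (Pi.single u 1) + M.Q (Pi.single w 1) =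
          M.Q (Pi.single u 1) + M.Q (Pi.single v 1) + (M.Q (Pi.single v 1) + M.Q (Pi.single w 1)) := by
        funext x
        simp only [Pi.add_apply]
        have := R_add_self (M.Q (Pi.single v 1) x)
        linear_combination -this
      rw [e]; exact this
  have hmem : ∀ a : X, M.Q (Pi.single a 1) ∈ U := by
    intro a
    have h0 : M.Q (Pi.single x0 1) ∈ U :=
      Submodule.mem_sup_right (Submodule.mem_span_singleton_self _)
    have h1 := U.add_mem (hall a x0) h0
    have e : M.Q (Pi.single a 1) + M.Q (Pi.single x0 1) + M.Q (Pi.single x0 1)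
        = M.Q (Pi.single a 1) := by
      funext x
      simp only [Pi.add_apply]
      have := R_add_self (M.Q (Pi.single x0 1) x)
      linear_combination this
    rwa [e] at h1
  intro t ht
  have : Fintype M.Edge := Fintype.ofFinite _
  classical
  have ht' : t = ∑ e : M.Edge, t e.out • M.Q (Pi.single e.out 1) := by
    funext x
    rw [Finset.sum_apply]
    simp only [Pi.smul_apply, smul_eq_mul]
    rw [Finset.sum_eq_single (Quotient.mk M.edgeSetoid x)]
    · rw [Q_single_apply, if_pos, mul_one]
      · apply ht
        exact M.edgeSetoid.symm' (Quotient.mk_out (s := M.edgeSetoid) x)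
      · rw [← M.edge_iff]
        exact Quotient.mk_out (s := M.edgeSetoid) x
    · intro e _ he
      rw [Q_single_apply, if_neg, mul_zero]
      rw [← M.edge_iff]
      intro h
      apply he
      rw [← Quotient.sound h]
      exact (Quotient.out_eq e).symm
    · intro h; exact absurd (Finset.mem_univ _) h
  rw [ht']
  exact Submodule.sum_mem _ fun e _ => U.smul_mem _ (hmem _)

/-- the Euler genus bounds the dimension of the first cohomology -/
lemma finrank_Z_le [Nonempty X] {g : ℕ} (hg : M.eulerChar = 2 - g) :
    finrank R M.Z ≤ finrank R M.B + g := by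
  obtain ⟨x0⟩ := ‹Nonempty X›
  -- dimension of Z
  have h1 : finrank R (Submodule.map M.Q (Inv M.cornerSetoid)) + finrank R M.Z =
      Nat.card (Quotient M.cornerSetoid) := by
    rw [← finrank_Inv M.cornerSetoid]
    have := LinearMap.finrank_range_add_finrank_ker (M.Q.domRestrict (Inv M.cornerSetoid))
    rw [← this]
    congr 1
    · rw [LinearMap.range_domRestrict]
    · rw [LinearMap.ker_domRestrict]
      rw [← Submodule.finrank_map_subtype_eq, Submodule.map_comap_subtype]
      rfl
  have h2 : Nat.card M.Edge ≤ finrank R (Submodule.map M.Q (Inv M.cornerSetoid)) + 1 := by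
    rw [← finrank_Inv M.edgeSetoid]
    refine (Submodule.finrank_mono (M.edge_le x0)).trans ?_
    refine (Submodule.finrank_add_le_finrank_add_finrank _ _).trans ?_
    have := finrank_span_le_card (R := R) ({M.Q (Pi.single x0 1)} : Set (X → R))
    simp only [Set.toFinset_singleton, Finset.card_singleton] at this
    omega
  have h3 := M.card_corner
  have h4 := M.card_edge
  -- dimension of B
  have h5 : finrank R M.B + finrank R (Inv M.vertexSetoid ⊓ Inv M.faceSetoid : Submodule R (X → R))
      = Nat.card M.Vertex + Nat.card M.Face := by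
    rw [← finrank_Inv M.vertexSetoid, ← finrank_Inv M.faceSetoid]
    exact Submodule.finrank_sup_add_finrank_inf_eq _ _
  have h6 : finrank R (Inv M.vertexSetoid ⊓ Inv M.faceSetoid : Submodule R (X → R)) ≤ 1 := by
    have : (Inv M.vertexSetoid ⊓ Inv M.faceSetoid : Submodule R (X → R)) ≤
        Submodule.span R {fun _ => 1} := by
      rintro y ⟨hv, hf⟩
      rw [Submodule.mem_span_singleton]
      refine ⟨y x0, ?_⟩
      funext x
      have hc := M.conn x0 x
      have key : y x0 = y x := by
        induction hc with
        | rel u v h =>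
          rcases h with rfl | rfl | rfl
          · exact hf _ _ (Relation.EqvGen.rel _ _ (Or.inl rfl))
          · exact hf _ _ (Relation.EqvGen.rel _ _ (Or.inr rfl))
          · exact hv _ _ (Relation.EqvGen.rel _ _ (Or.inr rfl))
        | refl _ => rfl
        | symm _ _ _ ih => exact ih.symm
        | trans _ _ _ _ _ ih1 ih2 => exact ih1.trans ih2
      simp [key]
    refine (Submodule.finrank_mono this).trans ?_
    have := finrank_span_le_card (R := R) ({fun _ => 1} : Set (X → R))
    simpa only [Set.toFinset_singleton, Finset.card_singleton] using this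
  unfold eulerChar at hg
  omega

end FlagMap

end Pool.Agent.H58.MapGraph
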