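import Mathlib
import Pool.Agent.H58.MapGraph.Euler

set_option autoImplicit false

namespace Pool.Agent.H58.MapGraph

open Module

lemma finrank_map_ker {V W : Type} [AddCommGroup V] [Module R V] [AddCommGroup W] [Module R W]
    [FiniteDimensional R V] (f : V →ₗ[R] W) (p : Submodule R V) :
    finrank R (Submodule.map f p) + finrank R (p ⊓ LinearMap.ker f : Submodule R V)
      = finrank R p := by
  have := LinearMap.finrank_range_add_finrank_ker (f.domRestrict p)
  rw [← this]
  congr 1
  · rw [LinearMap.range_domRestrict]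
  · rw [LinearMap.ker_domRestrict, ← Submodule.finrank_map_subtype_eq,
      Submodule.map_comap_subtype]

lemma finrank_map_diff {V W : Type} [AddCommGroup V] [Module R V] [AddCommGroup W] [Module R W]
    [FiniteDimensional R V] (f : V →ₗ[R] W) {p q : Submodule R V} (hqp : q ≤ p) :
    finrank R (Submodule.map f p) + finrank R q ≤ finrank R (Submodule.map f q) + finrank R p := by
  have h1 := finrank_map_ker f p
  have h2 := finrank_map_ker f q
  have h3 : finrank R (q ⊓ LinearMap.ker f : Submodule R V) ≤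
      finrank R (p ⊓ LinearMap.ker f : Submodule R V) :=
    Submodule.finrank_mono (inf_le_inf_right _ hqp)
  omega

namespace FlagMap

variable {X : Type} [Fintype X] (M : FlagMap X) (kept : Set X)

/-- cocycles that vanish across the edges that are not kept -/
def Zk : Submodule R (X → R) where
  carrier := {y | y ∈ M.Z ∧ ∀ x, x ∉ kept → y x = y (M.a2 x)}
  add_mem' := by
    rintro a b ⟨ha, ha'⟩ ⟨hb, hb'⟩
    refine ⟨M.Z.add_mem ha hb, fun x hx => ?_⟩
    simp only [Pi.add_apply, ← ha' x hx, ← hb' x hx]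
  zero_mem' := ⟨M.Z.zero_mem, fun _ _ => rfl⟩
  smul_mem' := by
    rintro c a ⟨ha, ha'⟩
    refine ⟨M.Z.smul_mem c ha, fun x hx => ?_⟩
    simp only [Pi.smul_apply, ← ha' x hx]

def Bk : Submodule R (X → R) := Inv M.vertexSetoid ⊔ Inv (M.regionSetoid kept)

omit [Fintype X] in
lemma vertex_le_Z : Inv M.vertexSetoid ≤ M.Z := by
  intro u hu
  rw [vertexSetoid, mem_Inv_gen] at hu
  refine ⟨?_, ?_⟩
  · rw [SetLike.mem_coe, cornerSetoid, mem_Inv_gen]
    intro x x' h
    exact hu x x' (Or.inl h)
  · rw [SetLike.mem_coe, LinearMap.mem_ker]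
    funext x
    rw [Q_apply]
    have h1 := hu x (M.a2 x) (Or.inr rfl)
    have h2 := hu (M.a0 x) (M.a2 (M.a0 x)) (Or.inr rfl)
    rw [M.comm'] at h2
    rw [← h1, ← h2, Pi.zero_apply]
    have e1 := R_add_self (u x)
    have e2 := R_add_self (u (M.a0 x))
    linear_combination e1 + e2

omit [Fintype X] in
lemma face_le_Z : Inv M.faceSetoid ≤ M.Z := by
  intro u hu
  rw [faceSetoid, mem_Inv_gen] at hu
  refine ⟨?_, ?_⟩
  · rw [SetLike.mem_coe, cornerSetoid, mem_Inv_gen]
    intro x x' h
    exact hu x x' (Or.inr h)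
  · rw [SetLike.mem_coe, LinearMap.mem_ker]
    funext x
    rw [Q_apply]
    have h1 := hu x (M.a0 x) (Or.inl rfl)
    have h2 := hu (M.a2 x) (M.a0 (M.a2 x)) (Or.inl rfl)
    rw [← h1, ← h2, Pi.zero_apply]
    have e1 := R_add_self (u x)
    have e2 := R_add_self (u (M.a2 x))
    linear_combination e1 + e2

omit [Fintype X] in
lemma B_le_Z : M.B ≤ M.Z := sup_le M.vertex_le_Z M.face_le_Z

omit [Fintype X] in
lemma region_le_face : Inv (M.regionSetoid kept) ≤ Inv M.faceSetoid := by
  intro u hu
  rw [regionSetoid, mem_Inv_gen] at hu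
  rw [faceSetoid, mem_Inv_gen]
  rintro x x' (h | h)
  · exact hu x x' (Or.inl h)
  · exact hu x x' (Or.inr (Or.inl h))

omit [Fintype X] in
lemma Bk_le_Zk : M.Bk kept ≤ M.Zk kept := by
  refine sup_le ?_ ?_
  · intro u hu
    refine ⟨M.vertex_le_Z hu, fun x _ => ?_⟩
    rw [vertexSetoid, mem_Inv_gen] at hu
    exact hu _ _ (Or.inr rfl)
  · intro u hu
    refine ⟨M.face_le_Z (M.region_le_face kept hu), fun x hx => ?_⟩
    rw [regionSetoid, mem_Inv_gen] at hu
    exact hu _ _ (Or.inr (Or.inr ⟨rfl, hx⟩))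

omit [Fintype X] in
lemma Zk_inf_B : M.Zk kept ⊓ M.B ≤ M.Bk kept := by
  rintro y ⟨⟨_, hy⟩, hB⟩
  rw [SetLike.mem_coe, B, Submodule.mem_sup] at hB
  obtain ⟨u, hu, v, hv, rfl⟩ := hB
  refine Submodule.add_mem_sup hu ?_
  rw [vertexSetoid, mem_Inv_gen] at hu
  rw [faceSetoid, mem_Inv_gen] at hv
  rw [regionSetoid, mem_Inv_gen]
  rintro x x' (rfl | rfl | ⟨rfl, hx⟩)
  · exact hv _ _ (Or.inl rfl)
  · exact hv _ _ (Or.inr rfl)
  · have h1 := hy x hx
    have h2 := hu x (M.a2 x) (Or.inr rfl)
    simp only [Pi.add_apply] at h1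
    rw [← h2] at h1
    exact add_left_cancel h1

lemma finrank_Zk_le [Nonempty X] {g : ℕ} (hg : M.eulerChar = 2 - g) :
    finrank R (M.Zk kept) ≤ finrank R (M.Bk kept) + g := by
  classical
  have h1 := M.finrank_Z_le hg
  have h2 := Submodule.finrank_sup_add_finrank_inf_eq (M.Zk kept) M.B
  have h3 : finrank R (M.Zk kept ⊔ M.B : Submodule R (X → R)) ≤ finrank R M.Z :=
    Submodule.finrank_mono (sup_le (fun y hy => hy.1) M.B_le_Z)
  have h4 : finrank R (M.Zk kept ⊓ M.B : Submodule R (X → R)) ≤ finrank R (M.Bk kept) :=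
    Submodule.finrank_mono (M.Zk_inf_B kept)
  omega

section Classes

variable {ι : Type} [Fintype ι] (c : ι → X)

/-- the components of the complement of the drawn graph -/
def classSetoid : Setoid X :=
  Relation.EqvGen.setoid (fun u v => v = M.a2 u ∨ (v = M.a0 u ∧ u ∈ kept) ∨
    (v = M.a1 u ∧ u ∉ Set.range c ∧ M.a1 u ∉ Set.range c))

def β : (X → R) →ₗ[R] (ι → R) where
  toFun s i := s (c i) + s (M.a1 (c i))
  map_add' a b := by
    funext i
    simp only [Pi.add_apply]
    ring
  map_smul' r a := by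
    funext i
    simp only [Pi.smul_apply, RingHom.id_apply, smul_eq_mul]
    ring

omit [Fintype X] [Fintype ι] in
lemma β_apply (s : X → R) (i : ι) : M.β c s i = s (c i) + s (M.a1 (c i)) := rfl

/-- distinct indices sit at distinct (region, vertex) incidences -/
def Sep (M : FlagMap X) (kept : Set X) (c : ι → X) : Prop :=
  ∀ i j, M.regionSetoid kept (c i) (c j) → M.vertexSetoid (c i) (c j) → i = j

omit [Fintype X] [Fintype ι] in
lemma Sep.inj {M : FlagMap X} {kept : Set X} {c : ι → X} (h : Sep M kept c) :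
    Function.Injective c := by
  intro i j hij
  apply h
  · rw [hij]
  · rw [hij]

omit [Fintype X] [Fintype ι] in
lemma Sep.a1_ne {M : FlagMap X} {kept : Set X} {c : ι → X} (h : Sep M kept c) (i j : ι) :
    M.a1 (c i) ≠ c j := by
  intro hij
  have : i = j := by
    apply h
    · rw [← hij]; exact Relation.EqvGen.rel _ _ (Or.inr (Or.inl rfl))
    · rw [← hij]; exact Relation.EqvGen.rel _ _ (Or.inl rfl)
  subst this
  exact M.ne1 _ hij

/-- the map whose kernel is `Zk` -/
noncomputable def T : (X → R) →ₗ[R] ((X → R) × (X → R) × (X → R)) where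
  toFun y := (fun x => y x + y (M.a1 x), M.Q y,
    fun x => by classical exact if x ∈ kept then 0 else y x + y (M.a2 x))
  map_add' a b := by
    classical
    refine Prod.ext ?_ (Prod.ext ?_ ?_)
    · funext x
      show (a + b) x + (a + b) (M.a1 x) = _
      simp only [Pi.add_apply, Prod.fst_add]
      ring
    · exact map_add _ _ _
    · funext x
      simp only [Pi.add_apply, Prod.snd_add]
      split_ifs
      · ring
      · ring
  map_smul' r a := by
    classical
    refine Prod.ext ?_ (Prod.ext ?_ ?_)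
    · funext x
      show (r • a) x + (r • a) (M.a1 x) = _
      simp only [Pi.smul_apply, Prod.smul_fst, RingHom.id_apply, smul_eq_mul]
      ring
    · exact map_smul _ _ _
    · funext x
      simp only [Pi.smul_apply, Prod.smul_snd, RingHom.id_apply, smul_eq_mul]
      split_ifs
      · ring
      · ring

omit [Fintype X] in
lemma ker_T_le : LinearMap.ker (M.T kept) ≤ M.Zk kept := by
  classical
  intro y hy
  rw [LinearMap.mem_ker] at hy
  have h1 : ∀ x, y x + y (M.a1 x) = 0 := fun x => congrFun (congrArg Prod.fst hy) x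
  have h2 : M.Q y = 0 := congrArg (fun p => p.2.1) hy
  have h3 : ∀ x, (if x ∈ kept then 0 else y x + y (M.a2 x)) = (0 : R) :=
    fun x => congrFun (congrArg (fun p => p.2.2) hy) x
  refine ⟨⟨?_, h2⟩, fun x hx => ?_⟩
  · rw [SetLike.mem_coe, cornerSetoid, mem_Inv_gen]
    rintro x _ rfl
    exact R_add_eq_zero.mp (h1 x)
  · have := h3 x
    rw [if_neg hx] at this
    exact R_add_eq_zero.mp this

lemma dual_key [DecidableEq ι] (hK : M.IsEdgeSet kept) (hc : Sep M kept c)
    (f : (ι → R) →ₗ[R] R)
    (hf : ∀ y ∈ M.Zk kept, f (fun i => y (c i)) = 0) :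
    ∃ s ∈ Inv (M.classSetoid kept c), M.β c s = fun i => f (Pi.single i 1) := by
  classical
  have hK' : ∀ x, x ∈ kept ↔ M.a0 x ∈ kept := fun x =>
    ⟨fun h => (hK x h).1, fun h => by have := (hK _ h).1; rwa [M.inv0] at this⟩
  have hK2 : ∀ x, x ∈ kept ↔ M.a2 x ∈ kept := fun x =>
    ⟨fun h => (hK x h).2, fun h => by have := (hK _ h).2; rwa [M.inv2] at this⟩
  set F : (X → R) →ₗ[R] R := f.comp (LinearMap.funLeft R R c) with hF
  have hFmem : F ∈ (LinearMap.ker (M.T kept)).dualAnnihilator := by
    rw [Submodule.mem_dualAnnihilator]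
    intro y hy
    exact hf y (M.ker_T_le kept hy)
  rw [← LinearMap.range_dualMap_eq_dualAnnihilator_ker] at hFmem
  obtain ⟨ψ, hψ⟩ := hFmem
  set t : X → R := fun x => ψ (Pi.single x 1, 0, 0) with ht
  set q : X → R := fun x => ψ (0, Pi.single x 1, 0) with hq
  set r : X → R := fun x => ψ (0, 0, Pi.single x 1) with hr
  have hFx : ∀ x, F (Pi.single x 1) = t x + t (M.a1 x) +
      (q x + q (M.a0 x) + q (M.a2 x) + q (M.a0 (M.a2 x)) +
        if x ∈ kept then 0 else r x + r (M.a2 x)) := by
    intro x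
    have h1 : (M.T kept) (Pi.single x 1) =
        (Pi.single x 1, 0, 0) + (Pi.single (M.a1 x) 1, 0, 0) +
        ((0, Pi.single x 1, 0) + (0, Pi.single (M.a0 x) 1, 0) + (0, Pi.single (M.a2 x) 1, 0) +
          (0, Pi.single (M.a0 (M.a2 x)) 1, 0) +
          if x ∈ kept then 0 else (0, 0, Pi.single x 1) + (0, 0, Pi.single (M.a2 x) 1)) := by
      have e0 : ∀ y, M.a0 y = x ↔ y = M.a0 x := fun y =>
        ⟨fun h => by rw [← h, M.inv0], fun h => by rw [h, M.inv0]⟩
      have e1 : ∀ y, M.a1 y = x ↔ y = M.a1 x := fun y =>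
        ⟨fun h => by rw [← h, M.inv1], fun h => by rw [h, M.inv1]⟩
      have e2 : ∀ y, M.a2 y = x ↔ y = M.a2 x := fun y =>
        ⟨fun h => by rw [← h, M.inv2], fun h => by rw [h, M.inv2]⟩
      have e02 : ∀ y, M.a2 y = M.a0 x ↔ y = M.a0 (M.a2 x) := fun y =>
        ⟨fun h => by rw [← M.comm', ← h, M.inv2], fun h => by rw [h, ← M.comm', M.inv2]⟩
      have t1 : ∀ y, ((M.T kept) (Pi.single x 1)).1 y =
          (Pi.single x 1 : X → R) y + (Pi.single (M.a1 x) 1 : X → R) y := by
        intro y
        show (Pi.single x 1 : X → R) y + (Pi.single x 1 : X → R) (M.a1 y) = _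
        simp only [Pi.single_apply, e1]
      have t2 : ∀ y, ((M.T kept) (Pi.single x 1)).2.1 y =
          (Pi.single x 1 : X → R) y + (Pi.single (M.a0 x) 1 : X → R) y +
          (Pi.single (M.a2 x) 1 : X → R) y + (Pi.single (M.a0 (M.a2 x)) 1 : X → R) y := by
        intro y
        show (Pi.single x 1 : X → R) y + (Pi.single x 1 : X → R) (M.a0 y) +
          (Pi.single x 1 : X → R) (M.a2 y) + (Pi.single x 1 : X → R) (M.a0 (M.a2 y)) = _
        simp only [Pi.single_apply, e0, e2, e02]
      have t3 : ∀ y, ((M.T kept) (Pi.single x 1)).2.2 y =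
          if x ∈ kept then 0 else (Pi.single x 1 : X → R) y + (Pi.single (M.a2 x) 1 : X → R) y := by
        intro y
        show (if y ∈ kept then 0 else (Pi.single x 1 : X → R) y + (Pi.single x 1 : X → R) (M.a2 y)) = _
        simp only [Pi.single_apply, e2]
        by_cases c1 : y = x
        · subst c1; rfl
        · by_cases c2 : y = M.a2 x
          · subst c2
            simp only [← hK2 x]
          · simp [c1, c2]
      by_cases hx : x ∈ kept
      · rw [if_pos hx]
        refine Prod.ext ?_ (Prod.ext ?_ ?_)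
        · funext y; rw [t1]; simp
        · funext y; rw [t2]; simp
        · funext y; rw [t3, if_pos hx]; simp
      · rw [if_neg hx]
        refine Prod.ext ?_ (Prod.ext ?_ ?_)
        · funext y; rw [t1]; simp
        · funext y; rw [t2]; simp
        · funext y; rw [t3, if_neg hx]; simp
    rw [← hψ, LinearMap.dualMap_apply, h1]
    split_ifs with hx
    · simp only [map_add, map_zero]
      rfl
    · simp only [map_add]
      rfl
  set s : X → R := fun x => q x + q (M.a0 x) + q (M.a2 x) + q (M.a0 (M.a2 x)) +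
        if x ∈ kept then 0 else r x + r (M.a2 x) with hs
  have hs2 : ∀ x, s (M.a2 x) = s x := by
    intro x
    rw [hs]
    simp only [M.inv2, ← hK2 x]
    split_ifs <;> ring
  have hs0 : ∀ x ∈ kept, s (M.a0 x) = s x := by
    intro x hx
    rw [hs]
    simp only [M.inv0, M.comm', if_pos hx, if_pos (hK x hx).1]
    ring
  have hst : ∀ x, s x + s (M.a1 x) = F (Pi.single x 1) + F (Pi.single (M.a1 x) 1) := by
    intro x
    have e1 := hFx x
    have e2 := hFx (M.a1 x)
    rw [M.inv1] at e2
    have e3 := R_add_self (t x)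
    have e4 := R_add_self (t (M.a1 x))
    rw [e1, e2]
    show s x + s (M.a1 x) = t x + t (M.a1 x) + s x + (t (M.a1 x) + t x + s (M.a1 x))
    linear_combination -e3 - e4
  have hFc : ∀ i, F (Pi.single (c i) 1) = f (Pi.single i 1) := by
    intro i
    rw [hF, LinearMap.comp_apply]
    congr 1
    funext j
    rw [LinearMap.funLeft_apply, Pi.single_apply, Pi.single_apply]
    by_cases hij : j = i
    · rw [if_pos hij, if_pos (by rw [hij])]
    · rw [if_neg hij, if_neg (fun h => hij (hc.inj h))]
  have hFn : ∀ x, x ∉ Set.range c → F (Pi.single x 1) = 0 := by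
    intro x hx
    rw [hF, LinearMap.comp_apply]
    have : LinearMap.funLeft R R c (Pi.single x 1) = 0 := by
      funext j
      rw [LinearMap.funLeft_apply, Pi.single_apply, if_neg, Pi.zero_apply]
      intro h
      exact hx ⟨j, h⟩
    rw [this, map_zero]
  refine ⟨s, ?_, ?_⟩
  · rw [classSetoid, mem_Inv_gen]
    rintro x _ (rfl | ⟨rfl, hx⟩ | ⟨rfl, hx, hx'⟩)
    · exact (hs2 x).symm
    · exact (hs0 x hx).symm
    · have := hst x
      rw [hFn _ hx, hFn _ hx', add_zero] at this
      exact R_add_eq_zero.mp this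
  · funext i
    rw [β_apply, hst, hFc, hFn, add_zero]
    rintro ⟨j, hj⟩
    exact hc.a1_ne i j hj.symm

end Classes

end FlagMap

end Pool.Agent.H58.MapGraph
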