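import Mathlib
import Pool.Agent.H58.MapGraph.Main

set_option autoImplicit false

namespace Pool.Agent.H58.MapGraph

open Module Finset

namespace FlagMap

variable {X : Type} [Fintype X] [DecidableEq X] (M : FlagMap X) (kept : Set X)
variable {ι : Type} [Fintype ι] [DecidableEq ι] (c : ι → X)

omit [DecidableEq X] in
lemma card_le_add (hK : M.IsEdgeSet kept) (hc : Sep M kept c) :
    Fintype.card ι ≤ finrank R (Submodule.map (M.β c) (Inv (M.classSetoid kept c))) +
      finrank R (Submodule.map (LinearMap.funLeft R R c) (M.Zk kept)) := by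
  classical
  set U := Submodule.map (LinearMap.funLeft R R c) (M.Zk kept) with hU
  let ev : Dual R (ι → R) →ₗ[R] (ι → R) :=
    { toFun := fun f i => f (Pi.single i 1)
      map_add' := fun _ _ => rfl
      map_smul' := fun _ _ => rfl }
  have hev : Function.Injective ev := by
    intro f g hfg
    apply LinearMap.pi_ext'
    intro i
    apply LinearMap.ext_ring
    exact congrFun hfg i
  have h1 : Submodule.map ev U.dualAnnihilator ≤
      Submodule.map (M.β c) (Inv (M.classSetoid kept c)) := by
    rintro _ ⟨f, hf, rfl⟩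
    rw [SetLike.mem_coe, Submodule.mem_dualAnnihilator] at hf
    obtain ⟨s, hs, hs'⟩ := M.dual_key kept c hK hc f (fun y hy => hf _ ⟨y, hy, rfl⟩)
    exact ⟨s, hs, hs'⟩
  have h2 := Submodule.finrank_mono h1
  rw [← LinearEquiv.finrank_eq (Submodule.equivMapOfInjective ev hev U.dualAnnihilator)] at h2
  have h3 := Subspace.finrank_add_finrank_dualAnnihilator_eq U
  rw [Module.finrank_pi] at h3
  omega

lemma sum_pair (hc : Sep M kept c) {s y : X → R} (hs : s ∈ Inv (M.classSetoid kept c))
    (hy : y ∈ Inv M.cornerSetoid) :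
    ∑ i, M.β c s i * y (c i) = ∑ x, s x * y x := by
  rw [classSetoid, mem_Inv_gen] at hs
  rw [cornerSetoid, mem_Inv_gen] at hy
  set k : X → R := fun x => s x * y x with hk
  have hinj1 : Function.Injective fun i => M.a1 (c i) := by
    intro i j h
    have := congrArg M.a1 h
    simp only [M.inv1] at this
    exact hc.inj this
  have hdisj : Disjoint (univ.image c) (univ.image fun i => M.a1 (c i)) := by
    rw [Finset.disjoint_left]
    intro x hx hx'
    rw [mem_image] at hx hx'
    obtain ⟨i, _, rfl⟩ := hx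
    obtain ⟨j, _, hj⟩ := hx'
    exact hc.a1_ne j i hj
  have h1 : ∑ x, k x = ∑ x ∈ (univ.image c ∪ univ.image fun i => M.a1 (c i)), k x +
      ∑ x ∈ (univ.image c ∪ univ.image fun i => M.a1 (c i))ᶜ, k x :=
    (Finset.sum_add_sum_compl _ _).symm
  rw [h1, Finset.sum_union hdisj, Finset.sum_image (fun _ _ _ _ h => hc.inj h),
    Finset.sum_image (fun _ _ _ _ h => hinj1 h), ← Finset.sum_add_distrib]
  have h2 : ∑ x ∈ (univ.image c ∪ univ.image fun i => M.a1 (c i))ᶜ, k x = 0 := by
    refine Finset.sum_involution (fun x _ => M.a1 x) ?_ (fun x _ _ => M.ne1 x) ?_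
      (fun x _ => M.inv1 x)
    · intro x hx
      rw [mem_compl, mem_union, not_or] at hx
      obtain ⟨hx1, hx2⟩ := hx
      have e1 : x ∉ Set.range c := by
        rintro ⟨i, rfl⟩
        exact hx1 (mem_image_of_mem _ (mem_univ _))
      have e2 : M.a1 x ∉ Set.range c := by
        rintro ⟨i, hi⟩
        apply hx2
        rw [mem_image]
        exact ⟨i, mem_univ _, by rw [hi, M.inv1]⟩
      rw [hk]
      simp only
      rw [← hs x (M.a1 x) (Or.inr (Or.inr ⟨rfl, e1, e2⟩)), ← hy x _ rfl]
      exact R_add_self _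
    · intro x hx
      rw [mem_compl, mem_union, not_or] at hx ⊢
      obtain ⟨hx1, hx2⟩ := hx
      constructor
      · intro h
        rw [mem_image] at h
        obtain ⟨i, _, hi⟩ := h
        apply hx2
        rw [mem_image]
        exact ⟨i, mem_univ _, by rw [hi, M.inv1]⟩
      · intro h
        rw [mem_image] at h
        obtain ⟨i, _, hi⟩ := h
        apply hx1
        rw [mem_image]
        refine ⟨i, mem_univ _, ?_⟩
        have := congrArg M.a1 hi
        rwa [M.inv1, M.inv1] at this
  rw [h2, add_zero]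
  refine Finset.sum_congr rfl fun i _ => ?_
  rw [β_apply, hk]
  simp only
  rw [← hy (c i) _ rfl]
  ring

lemma sum_vertex (hc : Sep M kept c) {s y : X → R} (hs : s ∈ Inv (M.classSetoid kept c))
    (hy : y ∈ Inv M.vertexSetoid) : ∑ i, M.β c s i * y (c i) = 0 := by
  rw [M.sum_pair kept c hc hs (M.vertex_le_Z hy).1]
  rw [classSetoid, mem_Inv_gen] at hs
  rw [vertexSetoid, mem_Inv_gen] at hy
  refine Finset.sum_involution (fun x _ => M.a2 x) ?_ (fun x _ _ => M.ne2 x)
    (fun _ _ => mem_univ _) (fun x _ => M.inv2 x)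
  intro x _
  rw [← hs x (M.a2 x) (Or.inl rfl), ← hy x (M.a2 x) (Or.inr rfl)]
  exact R_add_self _

lemma sum_region (hK : M.IsEdgeSet kept) (hc : Sep M kept c) {s y : X → R}
    (hs : s ∈ Inv (M.classSetoid kept c))
    (hy : y ∈ Inv (M.regionSetoid kept)) : ∑ i, M.β c s i * y (c i) = 0 := by
  classical
  rw [M.sum_pair kept c hc hs (M.face_le_Z (M.region_le_face kept hy)).1]
  rw [classSetoid, mem_Inv_gen] at hs
  rw [regionSetoid, mem_Inv_gen] at hy
  have hK2 : ∀ x, x ∈ kept ↔ M.a2 x ∈ kept := fun x =>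
    ⟨fun h => (hK x h).2, fun h => by have := (hK _ h).2; rwa [M.inv2] at this⟩
  refine Finset.sum_involution (fun x _ => if x ∈ kept then M.a0 x else M.a2 x) ?_ ?_
    (fun _ _ => mem_univ _) ?_
  · intro x _
    by_cases hx : x ∈ kept
    · simp only [if_pos hx]
      rw [← hs x (M.a0 x) (Or.inr (Or.inl ⟨rfl, hx⟩)), ← hy x (M.a0 x) (Or.inl rfl)]
      exact R_add_self _
    · simp only [if_neg hx]
      rw [← hs x (M.a2 x) (Or.inl rfl), ← hy x (M.a2 x) (Or.inr (Or.inr ⟨rfl, hx⟩))]
      exact R_add_self _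
  · intro x _ _
    by_cases hx : x ∈ kept
    · simp only [if_pos hx]; exact M.ne0 x
    · simp only [if_neg hx]; exact M.ne2 x
  · intro x _
    by_cases hx : x ∈ kept
    · simp only [if_pos hx, if_pos (hK x hx).1, M.inv0]
    · have hx' : M.a2 x ∉ kept := fun h => hx ((hK2 x).mpr h)
      simp only [if_neg hx, if_neg hx', M.inv2]

omit [DecidableEq X] [DecidableEq ι] in
/-- the coboundaries restricted to the incidences have dimension at most `|N| + |P| - 1` -/
lemma finrank_Bk (N : Finset (M.Region kept)) (P : Finset M.Vertex) (hN : N.Nonempty)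
    (hcN : ∀ i, (Quotient.mk (M.regionSetoid kept) (c i) : M.Region kept) ∈ N)
    (hcP : ∀ i, (Quotient.mk M.vertexSetoid (c i) : M.Vertex) ∈ P) :
    finrank R (Submodule.map (LinearMap.funLeft R R c) (M.Bk kept)) + 1 ≤ #N + #P := by
  classical
  let Θ : (N → R) × (P → R) →ₗ[R] (ι → R) :=
    { toFun := fun vu i => vu.1 ⟨_, hcN i⟩ + vu.2 ⟨_, hcP i⟩
      map_add' := fun a b => by
        funext i
        simp only [Prod.fst_add, Prod.snd_add, Pi.add_apply]
        ring
      map_smul' := fun r a => by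
        funext i
        simp only [Prod.smul_fst, Prod.smul_snd, Pi.smul_apply, RingHom.id_apply, smul_eq_mul]
        ring }
  have h1 : Submodule.map (LinearMap.funLeft R R c) (M.Bk kept) ≤ LinearMap.range Θ := by
    rintro _ ⟨y, hy, rfl⟩
    rw [SetLike.mem_coe, Bk, Submodule.mem_sup] at hy
    obtain ⟨u, hu, v, hv, rfl⟩ := hy
    refine ⟨(fun w => v (w.1.out), fun p => u (p.1.out)), ?_⟩
    funext i
    show v _ + u _ = u (c i) + v (c i)
    rw [hu _ _ (Quotient.mk_out (s := M.vertexSetoid) (c i)),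
      hv _ _ (Quotient.mk_out (s := M.regionSetoid kept) (c i)), add_comm]
  have h2 := Submodule.finrank_mono h1
  have h3 := LinearMap.finrank_range_add_finrank_ker Θ
  rw [Module.finrank_prod, Module.finrank_pi, Module.finrank_pi, Fintype.card_coe,
    Fintype.card_coe] at h3
  have h4 : 1 ≤ finrank R (LinearMap.ker Θ) := by
    rw [Submodule.one_le_finrank_iff]
    intro hbot
    have hmem : ((fun _ => 1, fun _ => 1) : (N → R) × (P → R)) ∈ LinearMap.ker Θ := by
      rw [LinearMap.mem_ker]
      funext i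
      exact R_add_self 1
    rw [hbot, Submodule.mem_bot] at hmem
    obtain ⟨w, hw⟩ := hN
    have := congrFun (congrArg Prod.fst hmem) ⟨w, hw⟩
    exact one_ne_zero this
  omega

end FlagMap

end Pool.Agent.H58.MapGraph
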