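import Mathlib
import Pool.Agent.H58.MapGraph.Ineq

set_option autoImplicit false

namespace Pool.Agent.H58.MapGraph

open Module Finset

namespace FlagMap

variable {X : Type} [Fintype X] [DecidableEq X] (M : FlagMap X) (kept : Set X)
variable {ι : Type} [Fintype ι] [DecidableEq ι] (c : ι → X)

/-- indicator of a class -/
noncomputable def ind (φ : Quotient (M.classSetoid kept c)) : X → R := fun x => by
  classical exact if Quotient.mk (M.classSetoid kept c) x = φ then 1 else 0

omit [Fintype X] [DecidableEq X] [Fintype ι] [DecidableEq ι] in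
lemma ind_mem (φ : Quotient (M.classSetoid kept c)) :
    M.ind kept c φ ∈ Inv (M.classSetoid kept c) := by
  intro x x' h
  unfold ind
  rw [Quotient.sound h]

lemma R_ne_zero {a : R} (h : a ≠ 0) : a = 1 := by
  revert a; decide

omit [DecidableEq X] in
theorem ineq (hK : M.IsEdgeSet kept) (hc : Sep M kept c) [Nonempty X] {g : ℕ}
    (hg : M.eulerChar = 2 - g) (N : Finset (M.Region kept)) (P : Finset M.Vertex)
    (hN : N.Nonempty)
    (hcN : ∀ i, (Quotient.mk (M.regionSetoid kept) (c i) : M.Region kept) ∈ N)
    (hcP : ∀ i, (Quotient.mk M.vertexSetoid (c i) : M.Vertex) ∈ P) (ℓ : ℕ)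
    (girth : ∀ T : Finset ι, T.Nonempty →
      (∀ w ∈ N, Even {i | i ∈ T ∧ (Quotient.mk (M.regionSetoid kept) (c i) : M.Region kept) = w}.ncard) →
      (∀ p ∈ P, Even {i | i ∈ T ∧ (Quotient.mk M.vertexSetoid (c i) : M.Vertex) = p}.ncard) →
      ℓ ≤ #T) :
    Fintype.card ι + 1 ≤ #N + #P + g ∨
      ℓ * (Fintype.card ι + 2) ≤ 2 * Fintype.card ι + ℓ * (#N + #P + g) := by
  classical
  have : Fintype (Quotient (M.classSetoid kept c)) := Fintype.ofFinite _
  set Φ := Quotient (M.classSetoid kept c) with hΦ
  set b : Φ → (ι → R) := fun φ => M.β c (M.ind kept c φ) with hb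
  set Φ' : Finset Φ := univ.filter fun φ => b φ ≠ 0 with hΦ'
  -- dimension
  have h1 := M.card_le_add kept c hK hc
  have h2 := finrank_map_diff (LinearMap.funLeft R R c) (M.Bk_le_Zk kept)
  have h3 := M.finrank_Zk_le kept hg
  have h4 := M.finrank_Bk kept c N P hN hcN hcP
  have h5 : Fintype.card ι + 1 ≤
      finrank R (Submodule.map (M.β c) (Inv (M.classSetoid kept c))) + (#N + #P + g) := by omega
  -- the image is spanned by the vectors `b φ`
  have hexp : ∀ s ∈ Inv (M.classSetoid kept c), M.β c s = ∑ φ : Φ, s φ.out • b φ := by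
    intro s hs
    have hs' : s = ∑ φ : Φ, s φ.out • M.ind kept c φ := by
      funext x
      rw [Finset.sum_apply]
      simp only [Pi.smul_apply, smul_eq_mul]
      rw [Finset.sum_eq_single (Quotient.mk (M.classSetoid kept c) x)]
      · unfold ind
        rw [if_pos rfl, mul_one]
        exact hs _ _ ((M.classSetoid kept c).symm' (Quotient.mk_out (s := M.classSetoid kept c) x))
      · intro φ _ hφ
        unfold ind
        rw [if_neg (Ne.symm hφ), mul_zero]
      · intro h; exact absurd (Finset.mem_univ _) h
    conv_lhs => rw [hs', map_sum]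
    refine Finset.sum_congr rfl fun φ _ => ?_
    rw [map_smul]
  have hsum0 : ∑ φ : Φ, b φ = 0 := by
    have h := hexp (fun _ => 1) (fun _ _ _ => rfl)
    simp only [one_smul] at h
    rw [← h]
    funext i
    exact R_add_self 1
  have hle : ∀ φ0 ∈ Φ', Submodule.map (M.β c) (Inv (M.classSetoid kept c)) ≤
      Submodule.span R (((Φ'.erase φ0).image b : Finset (ι → R)) : Set (ι → R)) := by
    intro φ0 hφ0
    set U := Submodule.span R (((Φ'.erase φ0).image b : Finset (ι → R)) : Set (ι → R)) with hU
    have hmem1 : ∀ φ, φ ≠ φ0 → b φ ∈ U := by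
      intro φ hφ
      by_cases h0 : b φ = 0
      · rw [h0]; exact U.zero_mem
      · apply Submodule.subset_span
        rw [Finset.mem_coe]
        exact mem_image_of_mem _ (mem_erase.mpr ⟨hφ, mem_filter.mpr ⟨mem_univ _, h0⟩⟩)
    have hmem0 : b φ0 ∈ U := by
      have hs := hsum0
      rw [← Finset.add_sum_erase _ _ (mem_univ φ0)] at hs
      have hb0 : b φ0 = ∑ φ ∈ univ.erase φ0, b φ := by
        funext i
        have := congrFun hs i
        rw [Pi.add_apply, Pi.zero_apply] at this
        exact R_add_eq_zero.mp this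
      rw [hb0]
      exact Submodule.sum_mem _ fun φ hφ => hmem1 φ (ne_of_mem_erase hφ)
    rintro _ ⟨s, hs, rfl⟩
    rw [hexp s hs]
    refine Submodule.sum_mem _ fun φ _ => U.smul_mem _ ?_
    by_cases h0 : φ = φ0
    · rw [h0]; exact hmem0
    · exact hmem1 φ h0
  -- evenness and girth
  have hgirth : ∀ φ ∈ Φ', ℓ ≤ #(univ.filter fun i => b φ i ≠ 0) := by
    intro φ hφ
    have hval : ∀ i, b φ i = if b φ i ≠ 0 then 1 else 0 := by
      intro i
      by_cases h : b φ i = 0
      · rw [if_neg (not_not.mpr h), h]
      · rw [if_pos h]; exact R_ne_zero h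
    have hcount : ∀ p : ι → Prop, ∑ i, b φ i * (if p i then 1 else 0) =
        ((({i | i ∈ (univ.filter fun i => b φ i ≠ 0 : Finset ι) ∧ p i} : Set ι).ncard : ℕ) : R) := by
      intro p
      have : ({i | i ∈ (univ.filter fun i => b φ i ≠ 0 : Finset ι) ∧ p i} : Set ι) =
          ((univ.filter fun i => b φ i ≠ 0 ∧ p i : Finset ι) : Set ι) := by
        ext i
        simp
      rw [this, Set.ncard_coe_finset, Finset.card_filter, Nat.cast_sum]
      refine Finset.sum_congr rfl fun i _ => ?_
      by_cases h : b φ i = 0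
      · simp [h]
      · have h1 := R_ne_zero h
        by_cases hp : p i
        · simp [hp, h1]
        · simp [hp]
    apply girth
    · rw [mem_filter] at hφ
      have : ∃ i, b φ i ≠ 0 := by
        by_contra hcon
        push Not at hcon
        exact hφ.2 (funext hcon)
      obtain ⟨i, hi⟩ := this
      exact ⟨i, mem_filter.mpr ⟨mem_univ _, hi⟩⟩
    · intro w _
      rw [← ZMod.natCast_eq_zero_iff_even, ← hcount]
      have := M.sum_region kept c hK hc (s := M.ind kept c φ)
        (y := fun x => if Quotient.mk (M.regionSetoid kept) x = w then 1 else 0)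
        (M.ind_mem kept c φ) (fun x x' h => by
          show (if Quotient.mk (M.regionSetoid kept) x = w then (1 : R) else 0) = _
          rw [Quotient.sound h])
      refine Eq.trans (Finset.sum_congr rfl fun i _ => ?_) this
      by_cases h : (Quotient.mk (M.regionSetoid kept) (c i) : M.Region kept) = w
      · simp only [if_pos h]; rfl
      · simp only [if_neg h]; rfl
    · intro w _
      rw [← ZMod.natCast_eq_zero_iff_even, ← hcount]
      have := M.sum_vertex kept c hc (s := M.ind kept c φ)
        (y := fun x => if Quotient.mk M.vertexSetoid x = w then 1 else 0)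
        (M.ind_mem kept c φ) (fun x x' h => by
          show (if Quotient.mk M.vertexSetoid x = w then (1 : R) else 0) = _
          rw [Quotient.sound h])
      refine Eq.trans (Finset.sum_congr rfl fun i _ => ?_) this
      by_cases h : (Quotient.mk M.vertexSetoid (c i) : M.Vertex) = w
      · simp only [if_pos h]; rfl
      · simp only [if_neg h]; rfl
  -- double counting
  have hdc : ℓ * #Φ' ≤ 2 * Fintype.card ι := by
    have e1 : ∑ φ ∈ Φ', ℓ ≤ ∑ φ ∈ Φ', #(univ.filter fun i => b φ i ≠ 0) :=
      Finset.sum_le_sum hgirth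
    have e2 : ∑ φ ∈ Φ', #(univ.filter fun i => b φ i ≠ 0) ≤
        ∑ φ : Φ, #(univ.filter fun i => b φ i ≠ 0) :=
      Finset.sum_le_sum_of_subset (filter_subset _ _)
    have e3 : ∑ φ : Φ, #(univ.filter fun i => b φ i ≠ 0) =
        ∑ i, #(univ.filter fun φ => b φ i ≠ 0) := by
      simp only [Finset.card_filter]
      exact Finset.sum_comm
    have e4 : ∀ i, #(univ.filter fun φ => b φ i ≠ 0) ≤ 2 := by
      intro i
      have : (univ.filter fun φ => b φ i ≠ 0) ⊆
          {(Quotient.mk (M.classSetoid kept c) (c i) : Φ),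
            (Quotient.mk (M.classSetoid kept c) (M.a1 (c i)) : Φ)} := by
        intro φ hφ
        rw [mem_filter] at hφ
        rw [mem_insert, mem_singleton]
        by_contra hcon
        push Not at hcon
        apply hφ.2
        show M.β c (M.ind kept c φ) i = 0
        rw [β_apply]
        unfold ind
        rw [if_neg (Ne.symm hcon.1), if_neg (Ne.symm hcon.2), add_zero]
      exact (card_le_card this).trans card_le_two
    have e5 : ∑ i : ι, #(univ.filter fun φ => b φ i ≠ 0) ≤ ∑ i : ι, 2 :=
      Finset.sum_le_sum fun i _ => e4 i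
    rw [Finset.sum_const, smul_eq_mul, mul_comm] at e1
    rw [Finset.sum_const, smul_eq_mul, card_univ, mul_comm] at e5
    omega
  rcases Φ'.eq_empty_or_nonempty with hemp | ⟨φ0, hφ0⟩
  · left
    have : Submodule.map (M.β c) (Inv (M.classSetoid kept c)) = ⊥ := by
      rw [eq_bot_iff]
      rintro _ ⟨s, hs, rfl⟩
      rw [hexp s hs, Submodule.mem_bot]
      refine Finset.sum_eq_zero fun φ _ => ?_
      have : b φ = 0 := by
        by_contra h
        have : φ ∈ Φ' := mem_filter.mpr ⟨mem_univ _, h⟩
        rw [hemp] at this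
        exact absurd this (notMem_empty _)
      rw [this, smul_zero]
    rw [this, finrank_bot] at h5
    omega
  · right
    have h6 := Submodule.finrank_mono (hle φ0 hφ0)
    have h7 := finrank_span_finset_le_card (R := R) ((Φ'.erase φ0).image b)
    have h8 : #((Φ'.erase φ0).image b) + 1 ≤ #Φ' := by
      have := card_image_le (s := Φ'.erase φ0) (f := b)
      have e := card_erase_add_one hφ0
      omega
    have h9 : finrank R (Submodule.map (M.β c) (Inv (M.classSetoid kept c))) + 1 ≤ #Φ' := by
      unfold Set.finrank at h7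
      omega
    have h10 : Fintype.card ι + 2 ≤ #Φ' + (#N + #P + g) := by omega
    calc ℓ * (Fintype.card ι + 2) ≤ ℓ * (#Φ' + (#N + #P + g)) := Nat.mul_le_mul_left _ h10
      _ = ℓ * #Φ' + ℓ * (#N + #P + g) := by ring
      _ ≤ _ := Nat.add_le_add_right hdc _

end FlagMap

end Pool.Agent.H58.MapGraph
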