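import Mathlib
import Pool.Agent.H58.MapGraph.Girth

set_option autoImplicit false

namespace Pool.Agent.H58.MapGraph

open Module Finset

namespace FlagMap

variable {X : Type} [Fintype X] (M : FlagMap X) (kept : Set X)

/-- the region `w` and the vertex `p` are incident -/
def Inc (w : M.Region kept) (p : M.Vertex) : Prop :=
  ∃ x : X, (Quotient.mk (M.regionSetoid kept) x : M.Region kept) = w ∧
    (Quotient.mk M.vertexSetoid x : M.Vertex) = p

/-- if the number of elements of `T` satisfying `q` is even, and `i` is one of them, there is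
another one -/
lemma exists_other {ι : Type} {T : Finset ι} {q : ι → Prop}
    (h : Even {i | i ∈ T ∧ q i}.ncard) {i : ι} (hi : i ∈ T) (hqi : q i) :
    ∃ j ∈ T, q j ∧ j ≠ i := by
  by_contra hcon
  push Not at hcon
  have : {i | i ∈ T ∧ q i} = {i} := by
    ext j
    constructor
    · rintro ⟨h1, h2⟩
      exact hcon j h1 h2
    · rintro rfl
      exact ⟨hi, hqi⟩
  rw [this, Set.ncard_singleton] at h
  exact absurd h (by decide)

open Classical in
lemma bound4 (hK : M.IsEdgeSet kept) [Nonempty X] {g : ℕ}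
    (hg : M.eulerChar = 2 - g) (N : Finset (M.Region kept)) (P : Finset M.Vertex)
    (hN : N.Nonempty) :
    #((N ×ˢ P).filter fun h => M.Inc kept h.1 h.2) + 1 ≤ #N + #P + g ∨
    #((N ×ˢ P).filter fun h => M.Inc kept h.1 h.2) + 4 ≤ 2 * (#N + #P + g) := by
  set H := (N ×ˢ P).filter fun h => M.Inc kept h.1 h.2 with hH
  have hmem : ∀ h : H, h.1.1 ∈ N ∧ h.1.2 ∈ P ∧ M.Inc kept h.1.1 h.1.2 := by
    rintro ⟨h, hh⟩
    rw [hH, mem_filter, mem_product] at hh
    exact ⟨hh.1.1, hh.1.2, hh.2⟩
  let c : H → X := fun h => (hmem h).2.2.choose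
  have hc1 : ∀ h : H, (Quotient.mk (M.regionSetoid kept) (c h) : M.Region kept) = h.1.1 :=
    fun h => (hmem h).2.2.choose_spec.1
  have hc2 : ∀ h : H, (Quotient.mk M.vertexSetoid (c h) : M.Vertex) = h.1.2 :=
    fun h => (hmem h).2.2.choose_spec.2
  have hsep : Sep M kept c := by
    intro i j h1 h2
    have e1 : i.1.1 = j.1.1 := by rw [← hc1 i, ← hc1 j]; exact Quotient.sound h1
    have e2 : i.1.2 = j.1.2 := by rw [← hc2 i, ← hc2 j]; exact Quotient.sound h2
    exact Subtype.ext (Prod.ext e1 e2)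
  have key := M.ineq kept c hK hsep hg N P hN (fun i => by rw [hc1]; exact (hmem i).1)
    (fun i => by rw [hc2]; exact (hmem i).2.1) 4 ?_
  · rw [Fintype.card_coe] at key
    omega
  · intro T hT hev1 hev2
    obtain ⟨i, hi⟩ := hT
    simp only [hc1] at hev1
    simp only [hc2] at hev2
    obtain ⟨j, hj, hj1, hji⟩ := exists_other (hev1 i.1.1 (hmem i).1) hi rfl
    obtain ⟨k, hk, hk1, hki⟩ := exists_other (hev2 i.1.2 (hmem i).2.1) hi rfl
    obtain ⟨l, hl, hl1, hlj⟩ := exists_other (hev2 j.1.2 (hmem j).2.1) hj rfl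
    have hj2 : j.1.2 ≠ i.1.2 := fun h => hji (Subtype.ext (Prod.ext hj1 h))
    have hli : l ≠ i := fun h => hj2 (by rw [← hl1, h])
    have hlk : l ≠ k := fun h => hj2 (by rw [← hl1, h, hk1])
    have hjk : j ≠ k := fun h => hj2 (by rw [h, hk1])
    have : ({i, j, k, l} : Finset H) ⊆ T := by
      intro x hx
      simp only [mem_insert, mem_singleton] at hx
      rcases hx with rfl | rfl | rfl | rfl <;> assumption
    refine le_trans ?_ (card_le_card this)
    rw [card_insert_of_notMem, card_insert_of_notMem, card_pair (Ne.symm hlk)]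
    · simp only [mem_insert, mem_singleton, not_or]
      exact ⟨hjk, Ne.symm hlj⟩
    · simp only [mem_insert, mem_singleton, not_or]
      exact ⟨Ne.symm hji, Ne.symm hki, Ne.symm hli⟩

lemma bound6 (hK : M.IsEdgeSet kept) [Nonempty X] {g : ℕ}
    (hg : M.eulerChar = 2 - g) (N : Finset (M.Region kept)) (P : Finset M.Vertex)
    (hN : N.Nonempty) (u v : P → M.Region kept) (hu : ∀ p, u p ∈ N) (hv : ∀ p, v p ∈ N)
    (huv : ∀ p, u p ≠ v p) (hiu : ∀ p, M.Inc kept (u p) p.1) (hiv : ∀ p, M.Inc kept (v p) p.1)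
    (hinj : ∀ p q, (u p = u q ∧ v p = v q) ∨ (u p = v q ∧ v p = u q) → p = q) :
    #P + 1 ≤ #N + g ∨ #P + 6 ≤ 3 * (#N + g) := by
  classical
  let r : P × Bool → M.Region kept := fun i => if i.2 then u i.1 else v i.1
  have hr : ∀ i, r i ∈ N ∧ M.Inc kept (r i) i.1.1 := by
    rintro ⟨p, b⟩
    cases b
    · exact ⟨hv p, hiv p⟩
    · exact ⟨hu p, hiu p⟩
  let c : P × Bool → X := fun i => (hr i).2.choose
  have hc1 : ∀ i, (Quotient.mk (M.regionSetoid kept) (c i) : M.Region kept) = r i :=
    fun i => (hr i).2.choose_spec.1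
  have hc2 : ∀ i, (Quotient.mk M.vertexSetoid (c i) : M.Vertex) = i.1.1 :=
    fun i => (hr i).2.choose_spec.2
  have hrne : ∀ p b, r (p, b) ≠ r (p, !b) := by
    intro p b
    cases b
    · exact (huv p).symm
    · exact huv p
  have hsep : Sep M kept c := by
    rintro ⟨p, b⟩ ⟨q, b'⟩ h1 h2
    have e1 : r (p, b) = r (q, b') := by rw [← hc1, ← hc1]; exact Quotient.sound h1
    have e2 : p = q := by
      apply Subtype.ext
      have := hc2 (p, b)
      have h' := hc2 (q, b')
      rw [← this, ← h']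
      exact Quotient.sound h2
    subst e2
    by_cases hb : b = b'
    · rw [hb]
    · exfalso
      have : b' = !b := by cases b <;> cases b' <;> simp_all
      rw [this] at e1
      exact hrne p b e1
  have key := M.ineq kept c hK hsep hg N P hN (fun i => by rw [hc1]; exact (hr i).1)
    (fun i => by rw [hc2]; exact i.1.2) 6 ?_
  · rw [Fintype.card_prod, Fintype.card_coe, Fintype.card_bool] at key
    omega
  · intro T hT hev1 hev2
    simp only [hc1] at hev1
    simp only [hc2] at hev2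
    -- both elements over a point of `T` are in `T`
    have hboth : ∀ p b, (p, b) ∈ T → ∀ b', (p, b') ∈ T := by
      intro p b hpb b'
      obtain ⟨⟨q, b''⟩, hq, hq1, hq2⟩ := exists_other (hev2 p.1 p.2) hpb rfl
      have e : q = p := Subtype.ext hq1
      subst e
      have hb : b'' ≠ b := fun h => hq2 (by rw [h])
      by_cases h : b' = b
      · rw [h]; exact hpb
      · have : b' = b'' := by cases b <;> cases b' <;> cases b'' <;> simp_all
        rw [this]; exact hq
    obtain ⟨⟨p, b⟩, hpb⟩ := hT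
    have hp := hboth p b hpb
    -- another point through `u p`
    obtain ⟨⟨q, b1⟩, hq, hq1, hq2⟩ := exists_other (hev1 (u p) (hu p)) (hp true) rfl
    obtain ⟨⟨s, b2⟩, hs, hs1, hs2⟩ := exists_other (hev1 (v p) (hv p)) (hp false) rfl
    have hqp : q ≠ p := by
      rintro rfl
      cases b1
      · exact huv q hq1.symm
      · exact hq2 rfl
    have hsp : s ≠ p := by
      rintro rfl
      cases b2
      · exact hs2 rfl
      · exact huv s hs1
    have hqs : q ≠ s := by
      rintro rfl
      apply hqp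
      apply hinj
      cases b1 <;> cases b2
      · exact absurd (hq1.symm.trans hs1) (huv p)
      · right
        exact ⟨hs1, hq1⟩
      · left
        exact ⟨hq1, hs1⟩
      · exact absurd (hq1.symm.trans hs1) (huv p)
    have hq' := hboth q b1 hq
    have hs' := hboth s b2 hs
    have hsub : (({p, q, s} : Finset P) ×ˢ (univ : Finset Bool)) ⊆ T := by
      rintro ⟨x, b'⟩ hx
      rw [mem_product] at hx
      simp only [mem_insert, mem_singleton] at hx
      rcases hx.1 with rfl | rfl | rfl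
      · exact hp b'
      · exact hq' b'
      · exact hs' b'
    refine le_trans ?_ (card_le_card hsub)
    rw [card_product, card_insert_of_notMem, card_pair hqs]
    · rfl
    · simp only [mem_insert, mem_singleton, not_or]
      exact ⟨Ne.symm hqp, Ne.symm hsp⟩

open Classical in
/-- the main counting result: a minimal set of points covering all the adjacencies -/
theorem exists_points (hK : M.IsEdgeSet kept) [Nonempty X] {g : ℕ}
    (hg : M.eulerChar = 2 - g) (N : Finset (M.Region kept)) (hN : N.Nonempty) :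
    ∃ P : Finset M.Vertex,
      (∀ w ∈ N, ∀ w' ∈ N, w ≠ w' → (∃ p, M.Inc kept w p ∧ M.Inc kept w' p) →
        ∃ p ∈ P, M.Inc kept w p ∧ M.Inc kept w' p) ∧
      ∃ w ∈ N, #N ≤ 8 + Nat.sqrt (8 * g) ∨ #(P.filter fun p => M.Inc kept w p) ≤ 7 + Nat.sqrt (8 * g) := by
  have : Fintype M.Vertex := Fintype.ofFinite _
  set Cov : Finset M.Vertex → Prop := fun P =>
    ∀ w ∈ N, ∀ w' ∈ N, w ≠ w' → (∃ p, M.Inc kept w p ∧ M.Inc kept w' p) →
        ∃ p ∈ P, M.Inc kept w p ∧ M.Inc kept w' p with hCov
  have hne : (univ.filter fun P : Finset M.Vertex => Cov P).Nonempty := by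
    refine ⟨univ, mem_filter.mpr ⟨mem_univ _, ?_⟩⟩
    rintro w _ w' _ _ ⟨p, hp⟩
    exact ⟨p, mem_univ _, hp⟩
  obtain ⟨P, hPmem, hPmin⟩ := exists_min_image _ (fun P : Finset M.Vertex => #P) hne
  have hP : Cov P := (mem_filter.mp hPmem).2
  refine ⟨P, hP, ?_⟩
  -- private pairs
  have hpriv : ∀ p : P, ∃ uv : M.Region kept × M.Region kept, uv.1 ∈ N ∧ uv.2 ∈ N ∧ uv.1 ≠ uv.2 ∧
      M.Inc kept uv.1 p.1 ∧ M.Inc kept uv.2 p.1 ∧
      ∀ q ∈ P, M.Inc kept uv.1 q → M.Inc kept uv.2 q → q = p.1 := by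
    rintro ⟨p, hp⟩
    have hnot : ¬ Cov (P.erase p) := by
      intro h
      have := hPmin _ (mem_filter.mpr ⟨mem_univ _, h⟩)
      have e := card_erase_add_one hp
      omega
    rw [hCov] at hnot
    push Not at hnot
    obtain ⟨w, hw, w', hw', hww', hex, hno⟩ := hnot
    obtain ⟨q, hq, hq1, hq2⟩ := hP w hw w' hw' hww' hex
    have hall : ∀ q ∈ P, M.Inc kept w q → M.Inc kept w' q → q = p := by
      intro q hq h1 h2
      by_contra hqp
      exact hno q (mem_erase.mpr ⟨hqp, hq⟩) h1 h2
    have := hall q hq hq1 hq2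
    subst this
    exact ⟨(w, w'), hw, hw', hww', hq1, hq2, hall⟩
  choose uv h1 h2 h3 h4 h5 h6 using hpriv
  have hinj : ∀ p q, ((uv p).1 = (uv q).1 ∧ (uv p).2 = (uv q).2) ∨
      ((uv p).1 = (uv q).2 ∧ (uv p).2 = (uv q).1) → p = q := by
    intro p q h
    apply Subtype.ext
    symm
    rcases h with ⟨ha, hb⟩ | ⟨ha, hb⟩
    · exact h6 p q.1 q.2 (by rw [ha]; exact h4 q) (by rw [hb]; exact h5 q)
    · exact h6 p q.1 q.2 (by rw [ha]; exact h5 q) (by rw [hb]; exact h4 q)
  have b6 := M.bound6 kept hK hg N P hN (fun p => (uv p).1) (fun p => (uv p).2) h1 h2 h3 h4 h5 hinj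
  have b4 := M.bound4 kept hK hg N P hN
  by_contra hcon
  push Not at hcon
  set s := Nat.sqrt (8 * g) with hs
  obtain ⟨w0, hw0⟩ := hN
  have hn : 9 + s ≤ #N := by
    have := (hcon w0 hw0).1
    omega
  have hsum : #N * (8 + s) ≤ #((N ×ˢ P).filter fun h => M.Inc kept h.1 h.2) := by
    have e1 : #((N ×ˢ P).filter fun h => M.Inc kept h.1 h.2) =
        ∑ w ∈ N, #(P.filter fun p => M.Inc kept w p) := by
      simp only [Finset.card_filter]
      rw [Finset.sum_product]
    rw [e1, ← smul_eq_mul, ← Finset.sum_const]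
    refine Finset.sum_le_sum fun w hw => ?_
    have := (hcon w hw).2
    omega
  have hsq : 8 * g < (s + 1) * (s + 1) := Nat.lt_succ_sqrt _
  have hH : #((N ×ˢ P).filter fun h => M.Inc kept h.1 h.2) + 16 ≤ 8 * #N + 8 * g := by
    omega
  have h7 : #N * s + 16 ≤ 8 * g := by nlinarith
  have h8 : (9 + s) * s ≤ #N * s := Nat.mul_le_mul_right _ hn
  nlinarith

end FlagMap

end Pool.Agent.H58.MapGraph
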